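import Mathlib

set_option autoImplicit false

namespace Pool.Agent.Helper83.Toep

/-- `A` is an admissible real `n × n` matrix for the bandwidth `k`: nonnegative entries, row and
column sums at most one, superdiagonal band of width one, subdiagonal band of width `k`, and
constant diagonals `c 0, ..., c k` on and below the main diagonal. -/
def Admissible (n k : ℕ) (A : Matrix (Fin n) (Fin n) ℝ) : Prop :=
  (∀ i j, 0 ≤ A i j) ∧
  (∀ j, ∑ i, A i j ≤ 1) ∧
  (∀ i, ∑ j, A i j ≤ 1) ∧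
  (∀ i j : Fin n, (i : ℕ) + 2 ≤ (j : ℕ) → A i j = 0) ∧
  (∀ i j : Fin n, (j : ℕ) + k < (i : ℕ) → A i j = 0) ∧
  (∃ c : ℕ → ℝ, (∀ l, 0 ≤ c l) ∧
    ∀ l, l ≤ k → ∀ i j : Fin n, (i : ℕ) = (j : ℕ) + l → A i j = c l)

end Pool.Agent.Helper83.Toep
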