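import Pool.Agent.Helper83.ToepDefs

set_option autoImplicit false

namespace Pool.Agent.Helper83.Toep

open Matrix Finset

/-! ### symmetric matrices -/

/-- squared Frobenius norm -/
def F {n : ℕ} (X : Matrix (Fin n) (Fin n) ℝ) : ℝ := ∑ i, ∑ j, X i j ^ 2

lemma F_nonneg {n : ℕ} (X : Matrix (Fin n) (Fin n) ℝ) : 0 ≤ F X :=
  Finset.sum_nonneg fun _ _ => Finset.sum_nonneg fun _ _ => sq_nonneg _

lemma F_mul {n : ℕ} (X Y : Matrix (Fin n) (Fin n) ℝ) : F (X * Y) ≤ F X * F Y := by
  unfold F
  have h1 : ∀ i j, (X * Y) i j ^ 2 ≤ (∑ k, X i k ^ 2) * (∑ k, Y k j ^ 2) := by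
    intro i j
    rw [Matrix.mul_apply]
    exact Finset.sum_mul_sq_le_sq_mul_sq _ _ _
  calc ∑ i, ∑ j, (X * Y) i j ^ 2 ≤ ∑ i, ∑ j, (∑ k, X i k ^ 2) * (∑ k, Y k j ^ 2) :=
        Finset.sum_le_sum fun i _ => Finset.sum_le_sum fun j _ => h1 i j
    _ = (∑ i, ∑ k, X i k ^ 2) * (∑ k, ∑ j, Y k j ^ 2) := by
        rw [Finset.sum_comm (f := fun k j => Y k j ^ 2), Finset.sum_mul_sum]

lemma trace_mul_sq {n : ℕ} (X Y : Matrix (Fin n) (Fin n) ℝ) :
    (trace (X * Y)) ^ 2 ≤ F X * F Y := by
  have h1 : trace (X * Y) = ∑ p : Fin n × Fin n, X p.1 p.2 * Y p.2 p.1 := by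
    rw [Fintype.sum_prod_type]
    simp [Matrix.trace, Matrix.mul_apply]
  have h2 : F X = ∑ p : Fin n × Fin n, X p.1 p.2 ^ 2 := by
    rw [Fintype.sum_prod_type]; rfl
  have h3 : F Y = ∑ p : Fin n × Fin n, Y p.2 p.1 ^ 2 := by
    rw [Fintype.sum_prod_type, Finset.sum_comm]; rfl
  rw [h1, h2, h3]
  exact Finset.sum_mul_sq_le_sq_mul_sq _ _ _

lemma F_pow {n : ℕ} (X : Matrix (Fin n) (Fin n) ℝ) (m : ℕ) : F (X ^ (m + 1)) ≤ F X ^ (m + 1) := by
  induction m with
  | zero => simp
  | succ m ih =>
    rw [pow_succ X, pow_succ (F X)]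
    exact (F_mul _ _).trans (mul_le_mul_of_nonneg_right ih (F_nonneg X))

lemma F_symm {n : ℕ} (X : Matrix (Fin n) (Fin n) ℝ) (h : ∀ i j, X i j = X j i) :
    F X = trace (X ^ 2) := by
  rw [pow_two]
  simp only [F, Matrix.trace, Matrix.diag, Matrix.mul_apply]
  refine Finset.sum_congr rfl fun i _ => Finset.sum_congr rfl fun j _ => ?_
  rw [h j i, pow_two]

lemma symm_bound {n : ℕ} (X : Matrix (Fin n) (Fin n) ℝ) (h : ∀ i j, X i j = X j i) (m : ℕ) :
    (trace (X ^ (m + 2))) ^ 2 ≤ (trace (X ^ 2)) ^ (m + 2) := by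
  rw [← F_symm X h, pow_succ X, pow_succ (F X)]
  refine (trace_mul_sq _ _).trans ?_
  exact mul_le_mul_of_nonneg_right (F_pow X m) (F_nonneg X)

/-! ### tridiagonal matrices with positive off-diagonal entries -/

lemma conj_pow {n : ℕ} (A : Matrix (Fin n) (Fin n) ℝ) (d : Fin n → ℝ) (hd : ∀ i, 0 < d i) (l : ℕ) :
    trace ((Matrix.of fun i j => (d i)⁻¹ * A i j * d j) ^ l) = trace (A ^ l) := by
  have key : ∀ l : ℕ, ∀ i j, ((Matrix.of fun i j => (d i)⁻¹ * A i j * d j) ^ l) i j
      = (d i)⁻¹ * (A ^ l) i j * d j := by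
    intro l
    induction l with
    | zero =>
      intro i j
      rw [pow_zero, pow_zero]
      by_cases hij : i = j
      · subst hij
        simp [(hd i).ne']
      · simp [hij]
    | succ l ih =>
      intro i j
      rw [pow_succ, pow_succ, Matrix.mul_apply, Matrix.mul_apply, Finset.mul_sum, Finset.sum_mul]
      refine Finset.sum_congr rfl fun k _ => ?_
      rw [ih i k, Matrix.of_apply]
      have := (hd k).ne'
      field_simp
  simp only [Matrix.trace, Matrix.diag, key]
  refine Finset.sum_congr rfl fun i _ => ?_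
  have := (hd i).ne'
  field_simp

lemma tridiag_pos {n : ℕ} (A : Matrix (Fin n) (Fin n) ℝ)
    (h0 : ∀ i j : Fin n, (i : ℕ) + 2 ≤ j → A i j = 0)
    (h0' : ∀ i j : Fin n, (j : ℕ) + 2 ≤ i → A i j = 0)
    (hu : ∀ i j : Fin n, (j : ℕ) = i + 1 → 0 < A i j)
    (hv : ∀ i j : Fin n, (i : ℕ) = j + 1 → 0 < A i j) (m : ℕ) :
    (trace (A ^ (m + 2))) ^ 2 ≤ (trace (A ^ 2)) ^ (m + 2) := by
  let q : ℕ → ℝ := fun s => if h : s + 1 < n then
    √(A ⟨s + 1, h⟩ ⟨s, by omega⟩ / A ⟨s, by omega⟩ ⟨s + 1, h⟩) else 1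
  have hq : ∀ s, 0 < q s := by
    intro s
    by_cases h : s + 1 < n
    · simp only [q, h, dif_pos]
      apply Real.sqrt_pos.2
      exact div_pos (hv _ _ rfl) (hu _ _ rfl)
    · simp [q, h]
  let d : Fin n → ℝ := fun i => ∏ s ∈ Finset.range i, q s
  have hd : ∀ i, 0 < d i := fun i => Finset.prod_pos fun s _ => hq s
  have hstep : ∀ i j : Fin n, (j : ℕ) = i + 1 → (d i)⁻¹ * A i j * d j = (d j)⁻¹ * A j i * d i := by
    intro i j hij
    have hlt : (i : ℕ) + 1 < n := by rw [← hij]; exact j.2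
    have hdj : d j = d i * q i := by
      simp only [d, hij, Finset.prod_range_succ]
    have hqi : q i ^ 2 = A j i / A i j := by
      have hj : j = ⟨(i : ℕ) + 1, hlt⟩ := Fin.ext hij
      simp only [q, hlt, dif_pos]
      rw [Real.sq_sqrt]
      · rw [hj]
      · rw [← hj]
        exact (div_pos (hv _ _ hij) (hu _ _ hij)).le
    rw [hdj]
    have h1 := (hd i).ne'
    have h2 := (hq i).ne'
    have h3 := (hu i j hij).ne'
    have h4 : A j i = q i ^ 2 * A i j := by
      rw [hqi]; field_simp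
    rw [h4]
    field_simp
  have hsymm : ∀ i j, (Matrix.of fun i j => (d i)⁻¹ * A i j * d j) i j =
      (Matrix.of fun i j => (d i)⁻¹ * A i j * d j) j i := by
    intro i j
    simp only [Matrix.of_apply]
    rcases lt_trichotomy (i : ℕ) j with h | h | h
    · rcases Nat.lt_or_ge ((i : ℕ) + 1) j with h' | h'
      · rw [h0 i j (by omega), h0' j i (by omega)]
        simp
      · exact hstep i j (by omega)
    · have : i = j := Fin.ext h
      rw [this]
    · rcases Nat.lt_or_ge ((j : ℕ) + 1) i with h' | h'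
      · rw [h0 j i (by omega), h0' i j (by omega)]
        simp
      · exact (hstep j i (by omega)).symm
  have := symm_bound _ hsymm m
  rwa [conj_pow A d hd, conj_pow A d hd] at this

lemma tridiag_nonneg {n : ℕ} (A : Matrix (Fin n) (Fin n) ℝ)
    (h0 : ∀ i j : Fin n, (i : ℕ) + 2 ≤ j → A i j = 0)
    (h0' : ∀ i j : Fin n, (j : ℕ) + 2 ≤ i → A i j = 0)
    (hA : ∀ i j, 0 ≤ A i j) (m : ℕ) :
    (trace (A ^ (m + 2))) ^ 2 ≤ (trace (A ^ 2)) ^ (m + 2) := by
  let E : Matrix (Fin n) (Fin n) ℝ :=
    Matrix.of fun i j => if (j : ℕ) = i + 1 ∨ (i : ℕ) = j + 1 then 1 else 0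
  have hcont : ∀ l : ℕ, Continuous fun ε : ℝ => trace ((A + ε • E) ^ l) := by
    intro l
    fun_prop
  have hpos : ∀ ε : ℝ, 0 < ε →
      (trace ((A + ε • E) ^ (m + 2))) ^ 2 ≤ (trace ((A + ε • E) ^ 2)) ^ (m + 2) := by
    intro ε hε
    apply tridiag_pos
    · intro i j hij
      have : ¬ ((j : ℕ) = i + 1 ∨ (i : ℕ) = j + 1) := by omega
      simp [E, this, h0 i j hij]
    · intro i j hij
      have : ¬ ((j : ℕ) = i + 1 ∨ (i : ℕ) = j + 1) := by omega
      simp [E, this, h0' i j hij]
    · intro i j hij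
      simp only [E, Matrix.add_apply, Matrix.smul_apply, Matrix.of_apply, hij, true_or, if_true]
      have := hA i j
      simp only [smul_eq_mul, mul_one]
      linarith
    · intro i j hij
      simp only [E, Matrix.add_apply, Matrix.smul_apply, Matrix.of_apply, hij, or_true, if_true]
      have := hA i j
      simp only [smul_eq_mul, mul_one]
      linarith
  have h1 : Filter.Tendsto (fun ε : ℝ => (trace ((A + ε • E) ^ (m + 2))) ^ 2)
      (nhdsWithin 0 (Set.Ioi 0)) (nhds ((trace (A ^ (m + 2))) ^ 2)) := by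
    have := ((hcont (m + 2)).tendsto (0 : ℝ)).mono_left
      (nhdsWithin_le_nhds (s := Set.Ioi (0 : ℝ)))
    rw [zero_smul, add_zero] at this
    exact this.pow 2
  have h2 : Filter.Tendsto (fun ε : ℝ => (trace ((A + ε • E) ^ 2)) ^ (m + 2))
      (nhdsWithin 0 (Set.Ioi 0)) (nhds ((trace (A ^ 2)) ^ (m + 2))) := by
    have := ((hcont 2).tendsto (0 : ℝ)).mono_left
      (nhdsWithin_le_nhds (s := Set.Ioi (0 : ℝ)))
    rw [zero_smul, add_zero] at this
    exact this.pow (m + 2)
  refine le_of_tendsto_of_tendsto h1 h2 ?_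
  filter_upwards [self_mem_nhdsWithin] with ε hε
  exact hpos ε hε

/-- the positive part: band width at most one -/
lemma pos_part (n k : ℕ) (hk : k ≤ 1) (A : Matrix (Fin n) (Fin n) ℝ) (hA : Admissible n k A)
    (h1 : trace A ≤ 1) (h2 : k = 1 → trace (A ^ 2) ≤ 1) (l : ℕ) (hl : 1 ≤ l) :
    trace (A ^ l) ≤ 1 := by
  obtain ⟨hnn, hcol, hrow, hup, hlow, c, hc0, hc⟩ := hA
  have htr2 : trace (A ^ 2) ≤ 1 := by
    rcases Nat.eq_or_lt_of_le hk with h | h
    · exact h2 h
    · have hk0 : k = 0 := by omega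
      subst hk0
      have hdiag : ∀ i, A i i = c 0 := fun i => hc 0 le_rfl i i (by omega)
      have hle : ∀ i, A i i ≤ 1 := fun i =>
        (Finset.single_le_sum (f := fun j => A i j) (fun j _ => hnn i j) (Finset.mem_univ i)).trans
          (hrow i)
      have : trace (A ^ 2) = ∑ i, A i i ^ 2 := by
        rw [pow_two]
        simp only [Matrix.trace, Matrix.diag, Matrix.mul_apply]
        refine Finset.sum_congr rfl fun i _ => ?_
        rw [Finset.sum_eq_single i]
        · rw [pow_two]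
        · intro j _ hj
          rcases lt_or_gt_of_ne (fun h => hj (Fin.ext h) : (j : ℕ) ≠ i) with h | h
          · rw [hlow i j (by omega), zero_mul]
          · rw [hlow j i (by omega), mul_zero]
        · intro h
          exact absurd (Finset.mem_univ i) h
      rw [this]
      refine le_trans (Finset.sum_le_sum fun i _ => ?_) h1
      show A i i ^ 2 ≤ A i i
      have := hle i
      have := hnn i i
      nlinarith
  rcases Nat.eq_or_lt_of_le hl with h | h
  · rw [← h, pow_one]; exact h1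
  · obtain ⟨m, rfl⟩ : ∃ m, l = m + 2 := ⟨l - 2, by omega⟩
    have hb := tridiag_nonneg A (fun i j h => hup i j h)
      (fun i j h => hlow i j (by omega)) hnn m
    have hnn2 : 0 ≤ trace (A ^ 2) := by
      rw [pow_two]
      simp only [Matrix.trace, Matrix.diag, Matrix.mul_apply]
      exact Finset.sum_nonneg fun i _ => Finset.sum_nonneg fun j _ => mul_nonneg (hnn _ _) (hnn _ _)
    have h3 : (trace (A ^ 2)) ^ (m + 2) ≤ 1 := pow_le_one₀ hnn2 htr2
    nlinarith [sq_nonneg (trace (A ^ (m + 2)) - 1)]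

/-! ### the counterexamples -/

/-- cyclic permutation matrix -/
def cyc (k : ℕ) : Matrix (Fin (k + 1)) (Fin (k + 1)) ℝ :=
  Matrix.of fun i j => if (j : ℕ) = ((i : ℕ) + 1) % (k + 1) then 1 else 0

lemma cyc_pow (k s : ℕ) (i j : Fin (k + 1)) :
    (cyc k ^ s) i j = if (j : ℕ) = ((i : ℕ) + s) % (k + 1) then 1 else 0 := by
  induction s generalizing i j with
  | zero =>
    rw [pow_zero, Matrix.one_apply, add_zero, Nat.mod_eq_of_lt i.2]
    by_cases h : i = j
    · simp [h]
    · have : ¬ (j : ℕ) = i := fun h' => h (Fin.ext h'.symm)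
      simp [h, this]
  | succ s ih =>
    rw [pow_succ, Matrix.mul_apply]
    have hlt : ((i : ℕ) + s) % (k + 1) < k + 1 := Nat.mod_lt _ (by omega)
    rw [Finset.sum_eq_single (⟨((i : ℕ) + s) % (k + 1), hlt⟩ : Fin (k + 1))]
    · rw [ih, cyc, Matrix.of_apply]
      simp [add_assoc]
    · intro x _ hx
      rw [ih, if_neg, zero_mul]
      intro h
      exact hx (Fin.ext h)
    · intro h
      exact absurd (Finset.mem_univ _) h

lemma trace_cyc_pow (k s : ℕ) :
    trace (cyc k ^ s) = if (k + 1) ∣ s then ((k : ℝ) + 1) else 0 := by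
  simp only [Matrix.trace, Matrix.diag, cyc_pow]
  have : ∀ i : Fin (k + 1), ((i : ℕ) = ((i : ℕ) + s) % (k + 1)) ↔ (k + 1) ∣ s := by
    intro i
    constructor
    · intro h
      have h1 : ((i : ℕ) + s) ≡ (i : ℕ) + 0 [MOD (k + 1)] := by
        show ((i : ℕ) + s) % (k + 1) = ((i : ℕ) + 0) % (k + 1)
        rw [← h, add_zero, Nat.mod_eq_of_lt i.2]
      have h2 := Nat.ModEq.add_left_cancel' _ h1
      exact (Nat.modEq_zero_iff_dvd).1 h2
    · rintro ⟨q, rfl⟩
      rw [Nat.add_mul_mod_self_left, Nat.mod_eq_of_lt i.2]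
  simp only [this]
  by_cases h : (k + 1) ∣ s
  · simp [h]
  · simp [h]

lemma trace_pow (k l : ℕ) (x d : ℝ) :
    trace ((x • (1 : Matrix (Fin (k + 1)) (Fin (k + 1)) ℝ) + d • cyc k) ^ l) =
      ∑ m ∈ Finset.range (l + 1),
        x ^ m * d ^ (l - m) * (l.choose m : ℝ) *
          (if (k + 1) ∣ (l - m) then ((k : ℝ) + 1) else 0) := by
  have hcomm : Commute (x • (1 : Matrix (Fin (k + 1)) (Fin (k + 1)) ℝ)) (d • cyc k) :=
    (Commute.one_left _).smul_left x
  rw [hcomm.add_pow, Matrix.trace_sum]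
  refine Finset.sum_congr rfl fun m _ => ?_
  rw [smul_pow, smul_pow, one_pow, ← trace_cyc_pow]
  have : (x ^ m • (1 : Matrix (Fin (k + 1)) (Fin (k + 1)) ℝ)) * (d ^ (l - m) • cyc k ^ (l - m)) *
      ((l.choose m : ℕ) : Matrix (Fin (k + 1)) (Fin (k + 1)) ℝ) =
      (x ^ m * d ^ (l - m) * (l.choose m : ℝ)) • (cyc k ^ (l - m)) := by
    rw [smul_mul_assoc, one_mul, smul_smul, ← nsmul_eq_mul']
    rw [← Nat.cast_smul_eq_nsmul ℝ, smul_smul]
    congr 1
    ring
  rw [this, Matrix.trace_smul, smul_eq_mul]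

lemma pow_ineq (k : ℕ) (hk : 2 ≤ k) : ((k : ℝ) + 1) ^ k - 1 ≤ (k : ℝ) ^ (k + 1) := by
  rcases Nat.eq_or_lt_of_le hk with h | h
  · rw [← h]; norm_num
  · have hk0 : (0 : ℝ) < k := by positivity
    have h3 : (3 : ℝ) ≤ k := by exact_mod_cast h
    have h1 : (1 + 1 / (k : ℝ)) ^ k ≤ Real.exp 1 := by
      have : 1 + 1 / (k : ℝ) ≤ Real.exp (1 / k) := by
        have := Real.add_one_le_exp (1 / (k : ℝ))
        linarith
      calc (1 + 1 / (k : ℝ)) ^ k ≤ (Real.exp (1 / k)) ^ k :=
            pow_le_pow_left₀ (by positivity) this k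
        _ = Real.exp 1 := by
            rw [← Real.exp_nat_mul]
            congr 1
            field_simp
    have h2 : Real.exp 1 < 3 := by
      have := Real.exp_one_lt_d9
      linarith
    have h4 : ((k : ℝ) + 1) ^ k = (k : ℝ) ^ k * (1 + 1 / (k : ℝ)) ^ k := by
      rw [← mul_pow]
      congr 1
      field_simp
    rw [h4, pow_succ]
    have h5 : (0 : ℝ) < (k : ℝ) ^ k := by positivity
    nlinarith

/-- For every `k ≥ 2` there is an admissible matrix of size `k + 1` violating the claim. -/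
lemma counter (k : ℕ) (hk : 2 ≤ k) : ∃ A : Matrix (Fin (k + 1)) (Fin (k + 1)) ℝ,
    Admissible (k + 1) k A ∧ (∀ l, 1 ≤ l → l ≤ k + 1 → trace (A ^ l) ≤ 1) ∧
      1 < trace (A ^ (k + 2)) := by
  have hN : (3 : ℝ) ≤ (k : ℝ) + 1 := by
    have : (2 : ℝ) ≤ k := by exact_mod_cast hk
    linarith
  set N : ℝ := (k : ℝ) + 1 with hNdef
  have hN0 : 0 < N := by linarith
  have hNk : 1 < N ^ k := by
    apply one_lt_pow₀ (by linarith) (by omega)
  set e : ℝ := 1 / N - 1 / N ^ (k + 1) with he
  have he' : e = (N ^ k - 1) / N ^ (k + 1) := by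
    rw [he, pow_succ]
    field_simp
  have hepos : 0 < e := by
    rw [he']
    apply div_pos (by linarith) (by positivity)
  set d : ℝ := e ^ ((1 : ℝ) / ((k + 1 : ℕ) : ℝ)) with hd
  have hd0 : 0 ≤ d := Real.rpow_nonneg hepos.le _
  have hdpow : d ^ (k + 1) = e := by
    rw [hd, ← Real.rpow_natCast, ← Real.rpow_mul hepos.le]
    have : (1 : ℝ) / ((k + 1 : ℕ) : ℝ) * ((k + 1 : ℕ) : ℝ) = 1 := by
      rw [div_mul_cancel₀]
      positivity
    rw [this, Real.rpow_one]
  have hdle : d ≤ 1 - 1 / N := by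
    have h1 : (0 : ℝ) ≤ 1 - 1 / N := by
      rw [sub_nonneg, div_le_one hN0]
      linarith
    refine le_of_pow_le_pow_left₀ (n := k + 1) (by omega) h1 ?_
    rw [hdpow, he']
    have : 1 - 1 / N = k / N := by
      rw [hNdef]; field_simp; ring
    rw [this, div_pow]
    apply div_le_div_of_nonneg_right _ (by positivity)
    exact pow_ineq k hk
  have hx0 : 0 ≤ 1 / N := by positivity
  refine ⟨(1 / N) • (1 : Matrix (Fin (k + 1)) (Fin (k + 1)) ℝ) + d • cyc k, ?_, ?_, ?_⟩
  · have hentry : ∀ i j : Fin (k + 1),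
        ((1 / N) • (1 : Matrix (Fin (k + 1)) (Fin (k + 1)) ℝ) + d • cyc k) i j =
        (if i = j then 1 / N else 0) + (if (j : ℕ) = ((i : ℕ) + 1) % (k + 1) then d else 0) := by
      intro i j
      simp [cyc, Matrix.one_apply]
    refine ⟨?_, ?_, ?_, ?_, ?_, ?_⟩
    · intro i j
      rw [hentry]
      split_ifs <;> linarith
    · intro j
      simp only [hentry, Finset.sum_add_distrib]
      have h1 : ∑ i : Fin (k + 1), (if i = j then 1 / N else 0) = 1 / N := by
        rw [Finset.sum_ite_eq' Finset.univ j (fun _ => 1 / N)]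
        simp
      have h2 : ∑ i : Fin (k + 1), (if (j : ℕ) = ((i : ℕ) + 1) % (k + 1) then d else 0) = d := by
        have hj := j.2
        have hlt : (if (j : ℕ) = 0 then k else (j : ℕ) - 1) < k + 1 := by
          split_ifs <;> omega
        rw [Finset.sum_eq_single (⟨if (j : ℕ) = 0 then k else (j : ℕ) - 1, hlt⟩ : Fin (k + 1))]
        · rw [if_pos]
          by_cases h0 : (j : ℕ) = 0
          · simp [h0]
          · simp only [h0, if_false]
            rw [Nat.sub_add_cancel (by omega), Nat.mod_eq_of_lt hj]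
        · intro i _ hi
          rw [if_neg]
          intro h
          apply hi
          apply Fin.ext
          show (i : ℕ) = if (j : ℕ) = 0 then k else (j : ℕ) - 1
          have hi2 := i.2
          rcases Nat.lt_or_ge ((i : ℕ) + 1) (k + 1) with h3 | h3
          · rw [Nat.mod_eq_of_lt h3] at h
            rw [if_neg (by omega)]
            omega
          · have h4 : (i : ℕ) + 1 = k + 1 := by omega
            rw [h4, Nat.mod_self] at h
            rw [if_pos h]
            omega
        · intro h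
          exact absurd (Finset.mem_univ _) h
      rw [h1, h2]
      linarith
    · intro i
      simp only [hentry, Finset.sum_add_distrib]
      have h1 : ∑ j : Fin (k + 1), (if i = j then 1 / N else 0) = 1 / N := by
        rw [Finset.sum_ite_eq Finset.univ i (fun _ => 1 / N)]
        simp
      have h2 : ∑ j : Fin (k + 1), (if (j : ℕ) = ((i : ℕ) + 1) % (k + 1) then d else 0) = d := by
        have hlt : ((i : ℕ) + 1) % (k + 1) < k + 1 := Nat.mod_lt _ (by omega)
        rw [Finset.sum_eq_single (⟨((i : ℕ) + 1) % (k + 1), hlt⟩ : Fin (k + 1))]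
        · rw [if_pos rfl]
        · intro j _ hj
          rw [if_neg]
          intro h
          exact hj (Fin.ext h)
        · intro h
          exact absurd (Finset.mem_univ _) h
      rw [h1, h2]
      linarith
    · intro i j hij
      rw [hentry]
      have hj := j.2
      have h1 : ¬ i = j := by
        intro h
        rw [h] at hij
        omega
      have h2 : ¬ (j : ℕ) = ((i : ℕ) + 1) % (k + 1) := by
        rw [Nat.mod_eq_of_lt (by omega)]
        omega
      rw [if_neg h1, if_neg h2, add_zero]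
    · intro i j hij
      exfalso
      have := i.2
      omega
    · refine ⟨fun l => if l = 0 then 1 / N else if l = k then d else 0, ?_, ?_⟩
      · intro l
        show 0 ≤ (if l = 0 then 1 / N else if l = k then d else 0)
        split_ifs <;> first | exact hx0 | exact hd0 | exact le_rfl
      · intro l hl i j hij
        rw [hentry]
        have hi := i.2
        have hj := j.2
        show _ = (if l = 0 then 1 / N else if l = k then d else 0)
        by_cases hl0 : l = 0
        · have hij' : i = j := Fin.ext (by omega)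
          have h2 : ¬ (j : ℕ) = ((i : ℕ) + 1) % (k + 1) := by
            rw [hij']
            rcases Nat.lt_or_ge ((j : ℕ) + 1) (k + 1) with h3 | h3
            · rw [Nat.mod_eq_of_lt h3]; omega
            · have h4 : (j : ℕ) + 1 = k + 1 := by omega
              rw [h4, Nat.mod_self]; omega
          rw [if_pos hij', if_neg h2, if_pos hl0, add_zero]
        · have hij' : ¬ i = j := by
            intro h
            rw [h] at hij
            omega
          rw [if_neg hij', if_neg hl0, zero_add]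
          by_cases hlk : l = k
          · have h1 : (i : ℕ) = k := by omega
            have h2 : (j : ℕ) = 0 := by omega
            rw [if_pos hlk, if_pos]
            rw [h1, h2, Nat.mod_self]
          · rw [if_neg hlk, if_neg]
            rcases Nat.lt_or_ge ((i : ℕ) + 1) (k + 1) with h3 | h3
            · rw [Nat.mod_eq_of_lt h3]; omega
            · have h4 : (i : ℕ) + 1 = k + 1 := by omega
              rw [h4, Nat.mod_self]; omega
  · intro l hl1 hl2
    rw [trace_pow, Finset.sum_range_succ]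
    have hlast : (1 / N) ^ l * d ^ (l - l) * (l.choose l : ℝ) *
        (if (k + 1) ∣ (l - l) then ((k : ℝ) + 1) else 0) = (1 / N) ^ (l - 1) := by
      rw [Nat.sub_self, if_pos (dvd_zero _), Nat.choose_self, pow_zero, ← hNdef]
      obtain ⟨m, rfl⟩ : ∃ m, l = m + 1 := ⟨l - 1, by omega⟩
      rw [Nat.add_sub_cancel, pow_succ]
      push_cast
      field_simp
    rw [hlast]
    rcases Nat.eq_or_lt_of_le hl2 with h | h
    · rw [h, Finset.sum_range_succ']
      have hz : ∑ m ∈ Finset.range k, (1 / N) ^ (m + 1) * d ^ (k + 1 - (m + 1)) *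
          ((k + 1).choose (m + 1) : ℝ) *
          (if (k + 1) ∣ (k + 1 - (m + 1)) then ((k : ℝ) + 1) else 0) = 0 := by
        apply Finset.sum_eq_zero
        intro m hm
        rw [Finset.mem_range] at hm
        rw [if_neg, mul_zero]
        apply Nat.not_dvd_of_pos_of_lt <;> omega
      rw [hz, zero_add, Nat.sub_zero, if_pos (dvd_refl _), pow_zero, Nat.choose_zero_right,
        Nat.add_sub_cancel, hdpow, ← hNdef, he]
      have : 1 * (1 / N - 1 / N ^ (k + 1)) * ((1 : ℕ) : ℝ) * N + (1 / N) ^ k = 1 := by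
        push_cast
        rw [pow_succ, div_pow, one_pow]
        field_simp
        ring
      rw [this]
    · have hz : ∑ m ∈ Finset.range l, (1 / N) ^ m * d ^ (l - m) * (l.choose m : ℝ) *
          (if (k + 1) ∣ (l - m) then ((k : ℝ) + 1) else 0) = 0 := by
        apply Finset.sum_eq_zero
        intro m hm
        rw [Finset.mem_range] at hm
        rw [if_neg, mul_zero]
        apply Nat.not_dvd_of_pos_of_lt <;> omega
      rw [hz, zero_add]
      apply pow_le_one₀ hx0
      rw [div_le_one hN0]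
      linarith
  · rw [trace_pow, Finset.sum_range_succ, Finset.sum_range_succ', Finset.sum_range_succ']
    have hz : ∑ m ∈ Finset.range k, (1 / N) ^ (m + 1 + 1) * d ^ (k + 2 - (m + 1 + 1)) *
        ((k + 2).choose (m + 1 + 1) : ℝ) *
        (if (k + 1) ∣ (k + 2 - (m + 1 + 1)) then ((k : ℝ) + 1) else 0) = 0 := by
      apply Finset.sum_eq_zero
      intro m hm
      rw [Finset.mem_range] at hm
      rw [if_neg, mul_zero]
      apply Nat.not_dvd_of_pos_of_lt <;> omega
    have h0 : ¬ (k + 1) ∣ (k + 2 - 0) := by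
      rw [Nat.sub_zero]
      intro h
      have : (k + 1) ∣ 1 := by
        have h2 : k + 2 = (k + 1) + 1 := rfl
        rw [h2] at h
        exact (Nat.dvd_add_right (dvd_refl _)).1 h
      have := Nat.le_of_dvd one_pos this
      omega
    rw [hz, if_neg h0, mul_zero, zero_add, add_zero, Nat.sub_self, if_pos (dvd_zero _)]
    have h1 : k + 2 - (0 + 1) = k + 1 := by omega
    rw [h1, if_pos (dvd_refl _), hdpow, Nat.choose_self, zero_add, Nat.choose_one_right, pow_zero,
      pow_one, ← hNdef, he]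
    have hN2 : ((k + 2 : ℕ) : ℝ) = N + 1 := by
      rw [hNdef]; push_cast; ring
    rw [hN2]
    have hval : 1 / N * (1 / N - 1 / N ^ (k + 1)) * (N + 1) * N +
        (1 / N) ^ (k + 2) * 1 * ((1 : ℕ) : ℝ) * N = 1 + 1 / N - 1 / N ^ k := by
      have h2 : (1 / N) ^ (k + 2) = 1 / (N ^ k * N * N) := by
        rw [div_pow, one_pow, pow_succ, pow_succ]
      rw [h2, pow_succ]
      push_cast
      field_simp
      ring
    rw [hval]
    have h3 : 1 / N ^ k < 1 / N := by
      apply one_div_lt_one_div_of_lt hN0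
      calc N = N ^ 1 := (pow_one N).symm
        _ < N ^ k := pow_lt_pow_right₀ (by linarith) (by omega)
    linarith

/-- The main statement. -/
theorem main (k : ℕ) :
    (∀ n : ℕ, 1 ≤ n → ∀ A : Matrix (Fin n) (Fin n) ℝ, Admissible n k A →
      (∀ l, 1 ≤ l → l ≤ k + 1 → trace (A ^ l) ≤ 1) → ∀ l, 1 ≤ l → trace (A ^ l) ≤ 1) ↔ k ≤ 1 := by
  constructor
  · intro h
    by_contra hk
    push Not at hk
    obtain ⟨A, hA, h1, h2⟩ := counter k (by omega)
    have := h (k + 1) (by omega) A hA h1 (k + 2) (by omega)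
    linarith
  · intro hk n _ A hA h l hl
    refine pos_part n k hk A hA ?_ ?_ l hl
    · have := h 1 le_rfl (by omega)
      rwa [pow_one] at this
    · intro hk1
      exact h 2 (by omega) (by omega)

end Pool.Agent.Helper83.Toep
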